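import Mathlib
import Pool.Agent.V11115.Gap.Main
import Pool.Agent.W66.ST

set_option autoImplicit false

/-!
# The Wagstaff prediction as a lower bound in every interval

For real `β > 0` and a prime `p` let `W β p` be the `p`-rough part (the product, with multiplicity,
of the prime factors larger than `p`) of the largest integer below `β * 2 ^ p`.  For `β = 1` this is
the Mersenne number `2 ^ p - 1` itself.  Call `p` an exponent of `β` if `W β p` is prime, and let
`E β n N` be the number of exponents of `β` in `(n, N]`.  We prove that for every `0 < ε < 1` there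
is `C` such that for almost every `β > 0` and all large `n`, for ALL `N ≥ n`,
`E β n N ≥ (1 - ε) (e ^ γ / log 2) (log (N / n) - C (log log N) ^ 2)`.
In particular the gaps are short: there is an absolute `C` such that for almost every `β > 0`
an interval `(n, N]` with `n` large and without exponents has `log (N / n) ≤ C (log log N) ^ 2`.
-/

namespace Pool.Agent.Results.MP_9b2bac_nt.AllIntervals

open Filter Topology MeasureTheory

/-- The product, with multiplicity, of the prime factors of `m` that are larger than `p`. -/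
def roughPart (p m : ℕ) : ℕ := (m.primeFactorsList.filter (fun r => p < r)).prod

/-- The `p`-rough part of the largest integer below `β * 2 ^ p`. -/
noncomputable def W (β : ℝ) (p : ℕ) : ℕ := roughPart p (⌈β * 2 ^ p⌉₊ - 1)

/-- The number of primes `p` with `n < p ≤ N` for which `W β p` is prime. -/
noncomputable def E (β : ℝ) (n N : ℕ) : ℕ :=
  ((Finset.Ioc n N).filter (fun p => p.Prime ∧ (W β p).Prime)).card

lemma W_one {p : ℕ} (hp : p.Prime) : W 1 p = 2 ^ p - 1 := by
  have h := Pool.Agent.W66S.repunit_special (b := 2) le_rfl hp (by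
    intro h
    exact hp.one_lt.ne' (Nat.dvd_one.1 h))
  have e1 : ⌈(1 / (((2 : ℕ) : ℝ) - 1)) * ((2 : ℕ) : ℝ) ^ p⌉₊ = ⌈(1 : ℝ) * 2 ^ p⌉₊ := by
    congr 1
    push_cast
    norm_num
  rw [e1, Nat.geomSum_eq le_rfl] at h
  have h2 : W 1 p = Pool.Agent.H305R2.roughPart p (⌈(1 : ℝ) * 2 ^ p⌉₊ - 1) := rfl
  rw [h2, h]
  norm_num

lemma E_eq (β : ℝ) (n N : ℕ) : (E β n N : ℝ) = Pool.Agent.V11115.Gap.SB n N β := by
  unfold E Pool.Agent.V11115.Gap.SB Pool.Agent.V11115.Gap.PB Pool.Agent.V11115.Gap.G
  rw [Finset.sum_boole, Finset.filter_filter]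
  rfl

/-- The exponents of `β = 1` are the Mersenne exponents; for almost every amplitude `β` every
interval `(n, N]` with `n` large contains at least `1 - ε` times the predicted number of exponents,
up to `C (log log N) ^ 2`; hence the intervals without exponents are short. -/
theorem result :
    (∀ n N : ℕ, E 1 n N =
      ((Finset.Ioc n N).filter (fun p => p.Prime ∧ (2 ^ p - 1).Prime)).card) ∧
    (∀ ε : ℝ, 0 < ε → ε < 1 → ∃ C : ℝ, 0 < C ∧ ∀ᵐ β : ℝ, 0 < β →
      ∃ n0 : ℕ, ∀ n N : ℕ, n0 ≤ n → n ≤ N →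
        (1 - ε) * (Real.exp Real.eulerMascheroniConstant / Real.log 2) *
          (Real.log N - Real.log n - C * (Real.log (Real.log N)) ^ 2) ≤ (E β n N : ℝ)) ∧
    (∃ C : ℝ, 0 < C ∧ ∀ᵐ β : ℝ, 0 < β → ∃ n0 : ℕ, ∀ n N : ℕ, n0 ≤ n → n ≤ N → E β n N = 0 →
      Real.log N - Real.log n ≤ C * (Real.log (Real.log N)) ^ 2) := by
  have hcc := Pool.Agent.V11115.Gap.cc_pos
  refine ⟨fun n N => ?_, fun ε hε0 hε1 => ?_, ?_⟩
  · unfold E
    congr 1
    ext p
    simp only [Finset.mem_filter]
    exact and_congr_right fun _ => and_congr_right fun hp => by rw [W_one hp]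
  · obtain ⟨C, hC, h⟩ := Pool.Agent.V11115.Gap.all_intervals hε0 hε1.le
    refine ⟨C, hC, ?_⟩
    filter_upwards [h] with β hβ h0
    obtain ⟨n0, hn0⟩ := hβ h0
    refine ⟨n0, fun n N hn hnN => ?_⟩
    rw [E_eq]
    exact hn0 n N hn hnN
  · obtain ⟨C, hC, h⟩ := Pool.Agent.V11115.Gap.all_intervals (ε := 1 / 2) (by norm_num) (by norm_num)
    refine ⟨C, hC, ?_⟩
    filter_upwards [h] with β hβ h0
    obtain ⟨n0, hn0⟩ := hβ h0
    refine ⟨n0, fun n N hn hnN hE => ?_⟩
    have h1 := hn0 n N hn hnN
    rw [← E_eq, hE, Nat.cast_zero] at h1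
    by_contra hc
    push Not at hc
    have h2 : 0 < (1 - 1 / 2) * Pool.Agent.V11115.Gap.cc *
        (Real.log N - Real.log n - C * (Real.log (Real.log N)) ^ 2) :=
      mul_pos (mul_pos (by norm_num) hcc) (by linarith)
    linarith

end Pool.Agent.Results.MP_9b2bac_nt.AllIntervals
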