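import Mathlib
import Pool.Agent.V1193.LE.C

set_option autoImplicit false

/-!
# The largest exponent in a set of primes of finite weight

For real `x > 0`, `y` and a prime `p` let `W x y p` be the `p`-rough part (the product, with
multiplicity, of the prime factors larger than `p`) of the largest integer below
`exp (p x + y) = β α ^ p`, where `α = exp x` is the base and `β = exp y` the amplitude.  At
`(x, y) = (log 2, 0)` it is the Mersenne number `2 ^ p - 1`.  The exponents in a set `S` are the
`p ∈ S` with `W x y p` prime.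

The starting files determine, for almost all parameters, for which sets `S` of primes there are
infinitely many exponents in `S`: those with `∑_{p ∈ S} log p / p = ∞`, and for these they count the
exponents.  Here the remaining sets are treated, those with `∑_{p ∈ S} log p / p < ∞`: we find the
exact asymptotic law of the largest exponent in `S` with respect to the pair `(x, y)` in an arbitrary
box, and show that a second exponent beyond `n` is of second order.
-/

namespace Pool.Agent.Results.MP_9b2bac_nt.LastExponentInSet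

open Filter Topology MeasureTheory

/-- The product, with multiplicity, of the prime factors of `m` that are larger than `p`. -/
def roughPart (p m : ℕ) : ℕ := (m.primeFactorsList.filter (fun r => p < r)).prod

/-- The `p`-rough part of the largest integer below `exp (p x + y)`. -/
noncomputable def W (x y : ℝ) (p : ℕ) : ℕ := roughPart p (⌈Real.exp (p * x + y)⌉₊ - 1)

/-- The exponents in `S` for the pair `z = (x, y)`. -/
def E (S : Set ℕ) (z : ℝ × ℝ) : Set ℕ := {p | p ∈ S ∧ (W z.1 z.2 p).Prime}

/-- The weight `log p / p` for `p ∈ S`, and `0` for the other numbers. -/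
noncomputable def w (S : Set ℕ) : ℕ → ℝ := S.indicator fun p : ℕ => Real.log p / p

/-- The sum of `log p / p` over the `p ∈ S` with `p ≥ n`. -/
noncomputable def V (S : Set ℕ) (n : ℕ) : ℝ := ∑' k : ℕ, w S (n + k)

/-- The box of the parameters. -/
def Box (x₀ x₁ y₀ y₁ : ℝ) : Set (ℝ × ℝ) := Set.Ioc x₀ x₁ ×ˢ Set.Ioc y₀ y₁

lemma W_mersenne {p : ℕ} (hp : p.Prime) : W (Real.log 2) 0 p = 2 ^ p - 1 := by
  have e1 : Real.exp (p * Real.log 2 + 0) = ((2 ^ p : ℕ) : ℝ) := by
    rw [add_zero, mul_comm, Real.exp_mul, Real.exp_log two_pos, Real.rpow_natCast]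
    push_cast
    rfl
  unfold W
  rw [e1, Nat.ceil_natCast]
  unfold roughPart
  rw [List.filter_eq_self.2, Nat.prod_primeFactorsList]
  · have h := hp.two_le
    have : 2 ^ 2 ≤ 2 ^ p := Nat.pow_le_pow_right (by norm_num) h
    omega
  · intro r hr
    obtain ⟨hr1, hr2⟩ := Nat.mem_primeFactorsList'.1 hr
    have hr2' := hr2.1
    have : Fact r.Prime := ⟨hr1⟩
    have : Fact p.Prime := ⟨hp⟩
    have h1 : (2 : ZMod r) ^ p = 1 := by
      have h3 : ((2 ^ p - 1 : ℕ) : ZMod r) = 0 := (ZMod.natCast_eq_zero_iff _ _).2 hr2'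
      rw [Nat.cast_sub Nat.one_le_two_pow] at h3
      push_cast at h3
      exact sub_eq_zero.1 h3
    have h2 : (2 : ZMod r) ≠ 1 := by
      intro h
      have : (1 : ZMod r) = 0 := by linear_combination h
      exact one_ne_zero this
    have h4 : orderOf (2 : ZMod r) = p := orderOf_eq_prime h1 h2
    have h5 : (2 : ZMod r) ≠ 0 := by
      intro h
      rw [h, zero_pow hp.ne_zero] at h1
      exact zero_ne_one h1
    have h6 : orderOf (2 : ZMod r) ∣ r - 1 := orderOf_dvd_of_pow_eq_one (ZMod.pow_card_sub_one_eq_one h5)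
    rw [h4] at h6
    have h7 : p ≤ r - 1 := Nat.le_of_dvd (by have := hr1.two_le; omega) h6
    have := hr1.two_le
    simp only [decide_eq_true_eq]
    omega

/-- At `(log 2, 0)` the numbers are the Mersenne numbers.  Let `S` be an infinite set with
`∑_{p ∈ S} log p / p < ∞`.  Almost every pair has finitely many exponents in `S`; with respect to
every box of pairs, the measure of the pairs with an exponent `p ≥ n` in `S`, and the mean number of
these exponents, are asymptotic to `(∫ e ^ γ / x) V S n`, the measure of the pairs whose largest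
exponent in `S` is `p` is asymptotic to `(∫ e ^ γ / x) log p / p`, and the measure of the pairs with
two exponents `≥ n` in `S` is `O((V S n) ^ 2)`. -/
theorem result :
    (∀ p : ℕ, p.Prime → W (Real.log 2) 0 p = 2 ^ p - 1) ∧
    ∀ S : Set ℕ, S.Infinite → Summable (w S) →
      (∀ᵐ z : ℝ × ℝ, 0 < z.1 → (E S z).Finite) ∧
      ∀ x₀ x₁ y₀ y₁ : ℝ, 0 < x₀ → x₀ < x₁ → y₀ < y₁ →
        Tendsto (fun n : ℕ => volume.real {z ∈ Box x₀ x₁ y₀ y₁ | ∃ p ∈ E S z, n ≤ p} / V S n)
          atTop (𝓝 (Real.exp Real.eulerMascheroniConstant * Real.log (x₁ / x₀) * (y₁ - y₀))) ∧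
        Tendsto (fun n : ℕ => (∫ z in Box x₀ x₁ y₀ y₁, ((E S z ∩ Set.Ici n).ncard : ℝ)) / V S n)
          atTop (𝓝 (Real.exp Real.eulerMascheroniConstant * Real.log (x₁ / x₀) * (y₁ - y₀))) ∧
        Tendsto (fun p : ℕ => volume.real {z ∈ Box x₀ x₁ y₀ y₁ | IsGreatest (E S z) p} /
          (Real.log p / p)) (atTop ⊓ 𝓟 S)
          (𝓝 (Real.exp Real.eulerMascheroniConstant * Real.log (x₁ / x₀) * (y₁ - y₀))) ∧
        ∃ K : ℝ, ∀ᶠ n : ℕ in atTop, volume.real {z ∈ Box x₀ x₁ y₀ y₁ |
          ∃ p ∈ E S z, ∃ q ∈ E S z, n ≤ p ∧ p < q} ≤ K * V S n ^ 2 := by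
  refine ⟨fun p hp => W_mersenne hp, fun S hinf hs => ⟨Pool.Agent.V1193.LE.finite_ae hs,
    fun x₀ x₁ y₀ y₁ hx0 hx hy => ?_⟩⟩
  obtain ⟨h1, h2, h3, K, h4⟩ := Pool.Agent.V1193.LE.final hx0 hx hy hinf hs
  have hB : MeasurableSet (Box x₀ x₁ y₀ y₁) := measurableSet_Ioc.prod measurableSet_Ioc
  have e : ∀ A : Set (ℝ × ℝ), (volume.restrict (Box x₀ x₁ y₀ y₁)).real A =
      volume.real {z ∈ Box x₀ x₁ y₀ y₁ | z ∈ A} := by
    intro A
    rw [measureReal_restrict_apply' hB]
    congr 1
    ext z
    exact and_comm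
  refine ⟨h1.congr fun n => ?_, h2.congr fun n => ?_, h3.congr' ?_, K, ?_⟩
  · congr 1
    refine (e _).trans ?_
    congr 1
    ext z
    constructor
    · rintro ⟨a, p, b, c⟩
      exact ⟨a, p, c, b⟩
    · rintro ⟨a, p, b, c⟩
      exact ⟨a, p, c, b⟩
  · congr 1
    have e2 : ∀ z : ℝ × ℝ, {p | n ≤ p ∧ z ∈ Pool.Agent.V1193.LE.Ev S p} =
        E S z ∩ Set.Ici n := by
      intro z
      ext k
      exact and_comm
    simp only [e2]
    rfl
  · rw [EventuallyEq, eventually_inf_principal]
    refine Eventually.of_forall fun p hp => ?_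
    have e3 : Pool.Agent.V1193.LE.wt S p = Real.log p / p := Set.indicator_of_mem hp _
    simp only [e3]
    congr 1
    exact e _
  · filter_upwards [h4] with n hn
    refine le_trans (le_of_eq ?_) hn
    refine Eq.trans ?_ (e _).symm
    congr 1
    ext z
    constructor
    · rintro ⟨a, p, b, q, c, d, f⟩
      exact ⟨a, p, q, d, f, b, c⟩
    · rintro ⟨a, p, q, d, f, b, c⟩
      exact ⟨a, p, b, q, c, d, f⟩

end Pool.Agent.Results.MP_9b2bac_nt.LastExponentInSet
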