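import Mathlib
import Pool.Agent.V60.Gap.Main
import Pool.Agent.V60.Gap.Same
import Pool.Agent.W66.LU

set_option autoImplicit false

/-!
# The exponents of almost every amplitude have no small multiplicative gaps

For real `β > 0` and a prime `p` let `N β p` be the largest integer below `β * 2 ^ p` and `W β p` its
`p`-rough part (the product, with multiplicity, of its prime factors larger than `p`).  For `β = 1`
both numbers are the Mersenne number `2 ^ p - 1`.  The exponents of `β` are the primes `p` with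
`W β p` prime; their number up to `n` is asymptotic to `(e ^ γ / log 2) log n` for almost every `β`
(`BaseTwoLaw`, starting library), so that the mean of `log (q / p)` over consecutive exponents
`p < q` is `log 2 / e ^ γ`.

We prove that for almost every `β` two exponents `p < q` with
`q < p + p / (log p) ^ (1 + ε)` come, for all large `p`, from a block of zeros in the binary
expansion: `N β q = 2 ^ (q - p) * N β p`, hence `W β q = W β p`, and moreover
`2 ^ (q - p) ≤ (log p) ^ (1 + ε)`.  More generally this holds, apart from finitely many pairs, for the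
pairs in any set `D` with a finite sum of `(log p / p) ^ 2` over the pairs `(p, q)` of `D`.

Proof.  The sieve for the pair `N β p`, `N β q = 2 ^ (q - p) N β p + r`, `0 ≤ r < 2 ^ (q - p)`
(`Pool.Agent.W66.XF`, starting library), is used separately for `r ≠ 0`, where it gives a measure at
most a constant times `(log p / p) ^ 2`, and for `r = 0`, where it gives `2 ^ (p - q) log p / p`; then
the theorem of Brun and Titchmarsh and the lemma of Borel and Cantelli.
-/

namespace Pool.Agent.Results.MP_9b2bac_nt.SmallGaps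

open Filter Topology MeasureTheory

/-- The product, with multiplicity, of the prime factors of `m` that are larger than `p`. -/
def roughPart (p m : ℕ) : ℕ := (m.primeFactorsList.filter (fun r => p < r)).prod

/-- The largest integer below `β * 2 ^ p`. -/
noncomputable def N (β : ℝ) (p : ℕ) : ℕ := ⌈β * 2 ^ p⌉₊ - 1

/-- The `p`-rough part of the largest integer below `β * 2 ^ p`. -/
noncomputable def W (β : ℝ) (p : ℕ) : ℕ := roughPart p (N β p)

/-- The exponents of `β`: the primes `p` with `W β p` prime. -/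
def Exponent (β : ℝ) (p : ℕ) : Prop := p.Prime ∧ (W β p).Prime

lemma N_one (p : ℕ) : N 1 p = 2 ^ p - 1 := by
  unfold N
  rw [one_mul]
  have : ((2 : ℝ) ^ p) = ((2 ^ p : ℕ) : ℝ) := by push_cast; ring
  rw [this, Nat.ceil_natCast]

/-- **Main theorem.** -/
theorem result :
    -- at the amplitude 1 the exponents are the Mersenne exponents
    (∀ p : ℕ, N 1 p = 2 ^ p - 1) ∧
    (∀ p : ℕ, Exponent 1 p ↔ p.Prime ∧ (2 ^ p - 1).Prime) ∧
    (∀ p q : ℕ, 1 ≤ p → p < q → N 1 q ≠ 2 ^ (q - p) * N 1 p) ∧
    -- close exponents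
    (∀ᵐ β : ℝ, 0 < β → ∀ ε : ℝ, 0 < ε → ∃ P : ℕ, ∀ p q : ℕ, P ≤ p → p < q →
      Exponent β p → Exponent β q →
      (p : ℝ) / Real.log p ^ (1 + ε) ≤ q - p ∨
        (N β q = 2 ^ (q - p) * N β p ∧ W β q = W β p ∧
          (2 : ℝ) ^ (q - p) ≤ Real.log p ^ (1 + ε))) ∧
    -- sets of pairs
    (∀ D : Set (ℕ × ℕ), (∀ z ∈ D, z.1 < z.2 ∧ z.2 ≤ 2 * z.1) →
      Summable (fun z : D => (Real.log z.1.1 / z.1.1) ^ 2) →
      ∀ᵐ β : ℝ, 0 < β →
        {z | z ∈ D ∧ Exponent β z.1 ∧ Exponent β z.2 ∧ W β z.1 ≠ W β z.2}.Finite) := by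
  refine ⟨N_one, fun p => ?_, fun p q hp hpq => ?_, ?_, fun D hD hs => ?_⟩
  · unfold Exponent W
    refine and_congr_right fun hp => ?_
    rw [N_one]
    have h : roughPart p (2 ^ p - 1) = 2 ^ p - 1 := Pool.Agent.W66L.rough_mersenne hp
    rw [h]
  · rw [N_one, N_one]
    intro h
    have h1 : 2 ^ q = 2 ^ (q - p) * 2 ^ p := by rw [← pow_add]; congr 1; omega
    have h2 : 2 ≤ 2 ^ (q - p) := by
      calc 2 = 2 ^ 1 := by norm_num
        _ ≤ 2 ^ (q - p) := Nat.pow_le_pow_right (by norm_num) (by omega)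
    have h3 : 2 ^ (q - p) * (2 ^ p - 1) = 2 ^ q - 2 ^ (q - p) := by
      rw [Nat.mul_sub, mul_one, ← h1]
    have h4 : 2 ^ (q - p) ≤ 2 ^ q := Nat.pow_le_pow_right (by norm_num) (by omega)
    omega
  · have key := Pool.Agent.V60.Gap.spaced_ceil (b := 2) (κ := 0) (C := 0) (g := fun _ => 0) le_rfl
      le_rfl (by norm_num) (by intro p; simp)
    filter_upwards [key] with β h hβ ε hε
    obtain ⟨P, hP⟩ := h hβ ε hε
    refine ⟨P + 2, fun p q hp hpq hep heq => ?_⟩
    rcases le_or_gt ((p : ℝ) / Real.log p ^ (1 + ε)) (q - p) with h1 | h1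
    · exact Or.inl h1
    right
    have e : ∀ m : ℕ, (fun p : ℕ => ⌈β * ((2 : ℕ) : ℝ) ^ p + (fun _ => (0 : ℝ)) p⌉₊ - 1) m = N β m := by
      intro m
      unfold N
      simp
    have h2 := hP p q (by omega) hep.1 heq.1 hpq h1 (by rw [e]; exact hep.2) (by rw [e]; exact heq.2)
    rw [e, e] at h2
    exact ⟨h2.1, Pool.Agent.V60.Gap.same_prime (b := 2) (by norm_num) (by omega) hpq.le h2.1 hep.2
      heq.2, by simpa using h2.2⟩
  · have key := Pool.Agent.V60.Gap.set_ceil (b := 2) (κ := 0) (C := 0) (g := fun _ => 0) le_rfl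
      le_rfl (by norm_num) (by intro p; simp) D hD hs
    filter_upwards [key] with β h hβ
    have h1 := h hβ
    have e : ∀ m : ℕ, ⌈β * ((2 : ℕ) : ℝ) ^ m + 0⌉₊ - 1 = N β m := by
      intro m
      unfold N
      simp
    simp only [e] at h1
    refine (h1.union (Pool.Agent.V60.Gap.finite_small D hD 2)).subset ?_
    rintro z ⟨hz, h2, h3, h4⟩
    rcases lt_or_ge z.1 2 with h5 | h5
    · exact Or.inr ⟨hz, h5⟩
    · refine Or.inl ⟨hz, h2.2, h3.2, fun h6 => h4 ?_⟩
      have h7 := (hD z hz).1
      exact (Pool.Agent.V60.Gap.same_prime (b := 2) (by norm_num) (by omega) h7.le h6 h2.2 h3.2).symm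

end Pool.Agent.Results.MP_9b2bac_nt.SmallGaps
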