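import Pool.Agent.V1213.TA.Row
import Pool.Agent.V1213.TA.Aff
import Pool.Agent.W66.LU

/-!
# The Lenstra-Pomerance-Wagstaff law for 2-adic units: error term, sets of exponents, points near the Mersenne point

For a 2-adic integer `α` and a prime `p` let `W α p` be the `p`-rough part (the product, with multiplicity, of the
prime factors larger than `p`) of the residue of `α` modulo `2 ^ p` in `[0, 2 ^ p)`, the integer formed by the last `p`
binary digits of `α`. For `α = -1` this is the Mersenne number `2 ^ p - 1` itself. For a set `S` let `M S α n` be the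
number of primes `p ≤ n` in `S` with `W α p` prime, and let `V S n` be the sum of `log p / p` over the primes `p ≤ n`
in `S`. The starting result `TwoAdicLaw` has the limit `M α n / log n → e ^ γ / log 2` for almost every 2-adic unit.

We prove the law with a square root error term
`M α n = (e ^ γ / log 2) log n + O((log n) ^ (1/2) (log log n) ^ (5/2))`,
the analogue for every set `S` of primes with `V S n → ∞`, and that there are infinitely many `p` in `S` with `W α p`
prime if and only if `V S n` is unbounded: for almost all 2-adic integers `x`, simultaneously for all the units among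
`α = u x + v`, for any countable set of pairs `(u, v)` of 2-adic integers with `u ≠ 0`. For example, for almost all `x`
all this holds at all the points `α = -1 + 2 ^ k x`, `k ≥ 1`, which converge to the Mersenne point `-1`.
-/

set_option autoImplicit false

namespace Pool.Agent.Results.MP_9b2bac_nt.TwoAdicErrorTerm

open Filter Topology MeasureTheory Asymptotics

/-- The product, with multiplicity, of the prime factors of `m` that are larger than `p`. -/
def roughPart (p m : ℕ) : ℕ := (m.primeFactorsList.filter (fun r => p < r)).prod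

/-- The `p`-rough part of the residue of the 2-adic integer `α` modulo `2 ^ p`. -/
noncomputable def W (α : ℤ_[2]) (p : ℕ) : ℕ := roughPart p (PadicInt.toZModPow p α).val

open Classical in
/-- The number of primes `p ≤ n` in the set `S` for which `W α p` is prime. -/
noncomputable def M (S : Set ℕ) (α : ℤ_[2]) (n : ℕ) : ℕ :=
  ((Finset.range (n + 1)).filter (fun p => p.Prime ∧ p ∈ S ∧ (W α p).Prime)).card

open Classical in
/-- The sum of `log p / p` over the primes `p ≤ n` in the set `S`. -/
noncomputable def V (S : Set ℕ) (n : ℕ) : ℝ :=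
  ∑ p ∈ (Finset.range (n + 1)).filter (fun p => p.Prime ∧ p ∈ S), Real.log p / p

lemma V_eq (S : Set ℕ) (n : ℕ) : V S n = Pool.Agent.TH888.R.VS S n := by
  classical
  unfold V Pool.Agent.TH888.R.VS
  rw [Finset.sum_filter]
  refine Finset.sum_congr rfl fun p _ => ?_
  by_cases h : p.Prime ∧ p ∈ S
  · rw [if_pos h, if_pos ⟨h.2, h.1⟩]
    rfl
  · rw [if_neg h, if_neg fun h1 => h ⟨h1.2, h1.1⟩]

lemma W_mersenne {p : ℕ} (hp : p.Prime) : W (-1) p = 2 ^ p - 1 := by
  have h1 : (PadicInt.toZModPow p (-1 : ℤ_[2])).val = 2 ^ p - 1 := by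
    rw [map_neg, map_one]
    have h2 : 1 ≤ 2 ^ p := Nat.one_le_two_pow
    have h3 : (-1 : ZMod (2 ^ p)) = ((2 ^ p - 1 : ℕ) : ZMod (2 ^ p)) := by
      rw [Nat.cast_sub h2, ZMod.natCast_self, Nat.cast_one, zero_sub]
    rw [h3, ZMod.val_natCast, Nat.mod_eq_of_lt (by omega)]
  have h2 : W (-1) p = Pool.Agent.H305R2.roughPart p (PadicInt.toZModPow p (-1 : ℤ_[2])).val := rfl
  rw [h2, h1, Pool.Agent.W66L.rough_mersenne hp]

lemma M_eq (S : Set ℕ) (α : ℤ_[2]) (n : ℕ) :
    M S α n = Pool.Agent.TH888.R.cS S (fun p => Pool.Agent.W66L.res 2 p α) n := rfl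

lemma coprime_of_unit {α : ℤ_[2]} (hu : IsUnit α) : (Pool.Agent.W66L.res 2 1 α).Coprime 2 := by
  unfold Pool.Agent.W66L.res
  have h1 : IsUnit (PadicInt.toZModPow 1 α) := hu.map _
  have h2 := ZMod.isUnit_iff_coprime (PadicInt.toZModPow 1 α).val (2 ^ 1)
  rw [ZMod.natCast_zmod_val] at h2
  simpa using h2.1 h1

/-- The law with error term and the dichotomy at the unit `α`, for the set `S`. -/
lemma pt [MeasurableSpace ℤ_[2]] [BorelSpace ℤ_[2]] (μ : Measure ℤ_[2]) [μ.IsAddHaarMeasure]
    {D : Set (ℤ_[2] × ℤ_[2])} (hD : D.Countable) (hD0 : ∀ d ∈ D, d.1 ≠ 0) (S : Set ℕ) :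
    ∀ᵐ x ∂μ, ∀ d ∈ D, IsUnit (d.1 * x + d.2) → Pool.Agent.TH888.R.Pt
      (fun p => Pool.Agent.W66L.res 2 p (d.1 * x + d.2))
      (Real.exp Real.eulerMascheroniConstant / Real.log 2) S := by
  have h := Pool.Agent.V1213.TA.pt_full (μ := μ) le_rfl (Pool.Agent.W66L.full_padic 2 μ) S
  have h1 : ∀ᵐ α ∂μ, IsUnit α → Pool.Agent.TH888.R.Pt (fun p => Pool.Agent.W66L.res 2 p α)
      (Real.exp Real.eulerMascheroniConstant / Real.log 2) S := by
    filter_upwards [h] with α hα hu
    have := hα (coprime_of_unit hu)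
    simpa only [Nat.cast_ofNat] using this
  rw [ae_ball_iff hD]
  intro d hd
  exact Pool.Agent.V1213.TA.ae_aff μ h1 (hD0 d hd) d.2

/-- The counting functions at `α = -1` are those of the Mersenne primes. For almost all `x`, at all the units among
`u x + v`, `(u, v)` in a countable set of pairs with `u ≠ 0`: the law with a square root error term, for all primes
and for each set of primes of divergent weight, and the dichotomy for each set of primes. -/
theorem result :
    (∀ (S : Set ℕ) (n : ℕ), M S (-1) n = {p : ℕ | p ≤ n ∧ p.Prime ∧ p ∈ S ∧ (2 ^ p - 1).Prime}.ncard) ∧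
    (∀ [MeasurableSpace ℤ_[2]] [BorelSpace ℤ_[2]] (μ : Measure ℤ_[2]) [μ.IsAddHaarMeasure]
      (D : Set (ℤ_[2] × ℤ_[2])), D.Countable → (∀ d ∈ D, d.1 ≠ 0) →
      (∀ᵐ x ∂μ, ∀ d ∈ D, IsUnit (d.1 * x + d.2) →
        (fun n : ℕ => (M Set.univ (d.1 * x + d.2) n : ℝ) -
          Real.exp Real.eulerMascheroniConstant / Real.log 2 * Real.log n) =O[atTop]
        (fun n : ℕ => Real.sqrt (Real.log n) * (Real.log (Real.log n)) ^ ((5 : ℝ) / 2))) ∧
      (∀ S : Set ℕ, Tendsto (V S) atTop atTop → ∀ᵐ x ∂μ, ∀ d ∈ D, IsUnit (d.1 * x + d.2) →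
        (fun n : ℕ => (M S (d.1 * x + d.2) n : ℝ) -
          Real.exp Real.eulerMascheroniConstant / Real.log 2 * V S n) =O[atTop]
        (fun n : ℕ => Real.sqrt (V S n * Real.log (Real.log n)) *
          (Real.log (V S n * Real.log (Real.log n))) ^ 2)) ∧
      (∀ S : Set ℕ, ∀ᵐ x ∂μ, ∀ d ∈ D, IsUnit (d.1 * x + d.2) →
        ({p : ℕ | p.Prime ∧ p ∈ S ∧ (W (d.1 * x + d.2) p).Prime}.Infinite ↔
          Tendsto (V S) atTop atTop))) := by
  have hV : ∀ S, V S = Pool.Agent.TH888.R.VS S := fun S => funext fun n => V_eq S n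
  refine ⟨fun S n => ?_, ?_⟩
  · classical
    unfold M
    rw [← Set.ncard_coe_finset]
    congr 1
    ext p
    simp only [Finset.coe_filter, Finset.mem_range, Set.mem_ofPred_eq]
    constructor
    · rintro ⟨h1, h2, h3, h4⟩
      exact ⟨by omega, h2, h3, by rwa [W_mersenne h2] at h4⟩
    · rintro ⟨h1, h2, h3, h4⟩
      exact ⟨by omega, h2, h3, by rwa [W_mersenne h2]⟩
  · intro _ _ μ _ D hD hD0
    refine ⟨?_, fun S hS => ?_, fun S => ?_⟩
    · filter_upwards [pt μ hD hD0 Set.univ] with x hx d hd hu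
      obtain ⟨B, hB, h⟩ := (hx d hd hu).law Pool.Agent.TH888.R.VS_univ_tendsto
      simp only [M_eq]
      exact Pool.Agent.TH888.R.bigO_all hB h
    · rw [hV] at hS ⊢
      filter_upwards [pt μ hD hD0 S] with x hx d hd hu
      obtain ⟨B, hB, h⟩ := (hx d hd hu).law hS
      simp only [M_eq]
      exact Pool.Agent.TH888.R.bigO_set hB hS h
    · rw [hV]
      filter_upwards [pt μ hD hD0 S] with x hx d hd hu
      constructor
      · intro hi
        by_contra hn
        exact hi ((hx d hd hu).fin hn)
      · exact (hx d hd hu).inf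

end Pool.Agent.Results.MP_9b2bac_nt.TwoAdicErrorTerm
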